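import Pool.Agent.Helper74.HG.GoalsG

/-!
# Project HG, part 3: packet HG-WDG (words to hypergraphs, global version)
-/

namespace Pool.Agent.Helper84.HG.WDG

open MvPolynomial Pool.Agent.Helper74.HG
noncomputable section

/-- The old variables among the new ones. -/
def em (σ : Type) : σ ↪ Option (Option σ) :=
  ⟨fun i => some (some i), fun i j h => by simpa using h⟩

/-- The old edges. -/
def upH {σ : Type} (H : Finset (Finset σ)) : Finset (Finset (Option (Option σ))) :=
  H.map ⟨Finset.map (em σ), Finset.map_injective _⟩

/-- An old word. -/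
def upW {σ : Type} (p : ℤ × List σ) : ℤ × List (Option (Option σ)) := (p.1, p.2.map (em σ))

/-- The old words. -/
def upL {σ : Type} (L : List (ℤ × List σ)) : List (ℤ × List (Option (Option σ))) := L.map upW

/-- Allowed words. -/
def Val {σ : Type} (L : List (ℤ × List σ)) : Prop :=
  ∀ p ∈ L, p.1 = 1 ∨ p.1 = -1

/-- The measure. -/
def meas {σ : Type} (L : List (ℤ × List σ)) : ℕ := (L.map fun p => 3 ^ p.2.length).sum

/-- `F` reduces to a hypergraph polynomial. -/
def Good {σ : Type} (F : MvPolynomial σ ℤ) : Prop :=
  ∃ (τ : Type) (_ : Fintype τ) (H' : Finset (Finset τ)), Rk3 H' ∧ RedG F (hyp H')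

theorem Good.of_red (htr : TRAG) {σ τ : Type} {F : MvPolynomial σ ℤ} {G : MvPolynomial τ ℤ}
    (h : RedG F G) (hG : Good G) : Good F := by
  obtain ⟨υ, i, H', h1, h2⟩ := hG
  exact ⟨υ, i, H', h1, htr _ _ _ h h2⟩

theorem em_apply {σ : Type} (i : σ) : em σ i = some (some i) := rfl

theorem rename_hyp {σ : Type} (H : Finset (Finset σ)) :
    rename (fun i : σ => (some (some i) : Option (Option σ))) (hyp H) = hyp (upH H) := by
  unfold hyp upH
  rw [map_sum, Finset.sum_map]
  refine Finset.sum_congr rfl fun e _ => ?_
  rw [map_prod]
  show _ = ∏ i ∈ e.map (em σ), X i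
  rw [Finset.prod_map]
  refine Finset.prod_congr rfl fun i _ => ?_
  rw [rename_X, em_apply]

theorem rename_list {σ : Type} (u : List σ) :
    rename (fun i : σ => (some (some i) : Option (Option σ)))
      ((u.map (X : σ → MvPolynomial σ ℤ)).prod) = ((u.map (em σ)).map X).prod := by
  rw [map_list_prod, List.map_map, List.map_map]
  congr 1
  refine List.map_congr_left fun i _ => ?_
  simp [em_apply]

theorem rename_wp {σ : Type} (p : ℤ × List σ) :
    rename (fun i : σ => (some (some i) : Option (Option σ))) (wp p) = wp (upW p) := by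
  unfold wp upW
  rw [map_mul, rename_C, rename_list]

theorem rename_sum {σ : Type} (L : List (ℤ × List σ)) :
    rename (fun i : σ => (some (some i) : Option (Option σ))) ((L.map wp).sum) =
      ((upL L).map wp).sum := by
  unfold upL
  rw [map_list_sum, List.map_map, List.map_map]
  congr 1
  refine List.map_congr_left fun p _ => ?_
  exact rename_wp p

/-- `insert` with a fixed instance. -/
def ins {τ : Type} (e : Finset τ) (H : Finset (Finset τ)) : Finset (Finset τ) :=
  @insert _ _ (@Finset.instInsert _ (Classical.decEq _)) e H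

/-- The pair `{a, b}`. -/
def pr {τ : Type} (a b : τ) : Finset τ :=
  @insert _ _ (@Finset.instInsert _ (Classical.decEq _)) a {b}

/-- The set of the letters. -/
def toF {τ : Type} (l : List τ) : Finset τ := @List.toFinset _ (Classical.decEq _) l

theorem mem_ins {τ : Type} {e e' : Finset τ} {H : Finset (Finset τ)} :
    e' ∈ ins e H ↔ e' = e ∨ e' ∈ H := by
  let _ := Classical.decEq (Finset τ)
  exact Finset.mem_insert

theorem mem_pr {τ : Type} {a b x : τ} : x ∈ pr a b ↔ x = a ∨ x = b := by
  let _ := Classical.decEq τ
  unfold pr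
  rw [Finset.mem_insert, Finset.mem_singleton]

theorem card_pr {τ : Type} {a b : τ} (h : a ≠ b) : (pr a b).card = 2 := by
  let _ := Classical.decEq τ
  exact Finset.card_pair h

theorem prod_pr {τ : Type} {a b : τ} (h : a ≠ b) :
    (∏ i ∈ pr a b, (X i : MvPolynomial τ ℤ)) = X a * X b := by
  let _ := Classical.decEq τ
  exact Finset.prod_pair h

theorem mem_toF {τ : Type} {l : List τ} {x : τ} : x ∈ toF l ↔ x ∈ l := by
  let _ := Classical.decEq τ
  exact List.mem_toFinset

theorem card_toF {τ : Type} {l : List τ} (h : l.Nodup) : (toF l).card = l.length := by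
  let _ := Classical.decEq τ
  exact List.toFinset_card_of_nodup h

theorem prod_toF {τ : Type} {l : List τ} (h : l.Nodup) :
    (∏ i ∈ toF l, (X i : MvPolynomial τ ℤ)) = (l.map X).prod := by
  let _ := Classical.decEq τ
  exact List.prod_toFinset _ h

theorem hyp_ins {σ : Type} {H : Finset (Finset σ)} {e : Finset σ} (he : e ∉ H) :
    hyp (ins e H) = (∏ i ∈ e, X i) + hyp H := by
  let _ := Classical.decEq (Finset σ)
  exact Finset.sum_insert he

theorem none_not_mem {σ : Type} {H : Finset (Finset σ)} {e : Finset (Option (Option σ))}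
    (he : e ∈ upH H) : (none : Option (Option σ)) ∉ e ∧ (some none : Option (Option σ)) ∉ e := by
  unfold upH at he
  rw [Finset.mem_map] at he
  obtain ⟨e', _, rfl⟩ := he
  constructor
  · intro h
    have h' := Finset.mem_map.1 h
    obtain ⟨i, _, hi⟩ := h'
    rw [em_apply] at hi
    cases hi
  · intro h
    have h' := Finset.mem_map.1 h
    obtain ⟨i, _, hi⟩ := h'
    rw [em_apply] at hi
    cases hi

theorem cub_up {σ : Type} {H : Finset (Finset σ)} (hH : Rk3 H) : Rk3 (upH H) := by
  intro e he
  unfold upH at he
  rw [Finset.mem_map] at he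
  obtain ⟨e', he', rfl⟩ := he
  show 1 ≤ (e'.map (em σ)).card ∧ (e'.map (em σ)).card ≤ 3
  rw [Finset.card_map]
  exact hH e' he'

theorem cub_ins {σ : Type} {H : Finset (Finset σ)} (hH : Rk3 H) {e : Finset σ}
    (he : 1 ≤ e.card ∧ e.card ≤ 3) : Rk3 (ins e H) := by
  intro e' he'
  rcases mem_ins.1 he' with rfl | h
  · exact he
  · exact hH e' h

theorem val_up {σ : Type} {L : List (ℤ × List σ)} (hL : Val L) : Val (upL L) := by
  intro p hp
  unfold upL at hp
  rw [List.mem_map] at hp
  obtain ⟨q, hq, rfl⟩ := hp
  exact hL q hq

theorem meas_up {σ : Type} (L : List (ℤ × List σ)) : meas (upL L) = meas L := by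
  unfold meas upL
  rw [List.map_map]
  congr 1
  refine List.map_congr_left fun p _ => ?_
  show 3 ^ (p.2.map (em σ)).length = 3 ^ p.2.length
  rw [List.length_map]

theorem none_ne {σ : Type} : (none : Option (Option σ)) ≠ some none := by
  intro h
  cases h

theorem em_ne {σ : Type} (i : σ) : em σ i ≠ some none := by
  rw [em_apply]
  intro h
  cases h

/-- The edges added in a step. -/
def H0 {σ : Type} (H : Finset (Finset σ)) : Finset (Finset (Option (Option σ))) :=
  ins (pr none (some none)) (upH H)

/-- The edges added in a step with `a = X i`. -/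
def H1 {σ : Type} (H : Finset (Finset σ)) (i : σ) : Finset (Finset (Option (Option σ))) :=
  ins (pr (em σ i) (some none)) (H0 H)

theorem wl_not_mem {σ : Type} (H : Finset (Finset σ)) :
    pr (none : Option (Option σ)) (some none) ∉ upH H := by
  intro h
  exact (none_not_mem h).1 (mem_pr.2 (Or.inl rfl))

theorem il_not_mem {σ : Type} (H : Finset (Finset σ)) (i : σ) :
    pr (em σ i) (some none) ∉ H0 H := by
  intro h
  rcases mem_ins.1 h with h | h
  · have h1 : em σ i ∈ pr (none : Option (Option σ)) (some none) := by
      rw [← h]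
      exact mem_pr.2 (Or.inl rfl)
    rcases mem_pr.1 h1 with h2 | h2
    · rw [em_apply] at h2
      cases h2
    · exact em_ne i h2
  · exact (none_not_mem h).2 (mem_pr.2 (Or.inr rfl))

theorem hyp_wl {σ : Type} (H : Finset (Finset σ)) :
    hyp (H0 H) = X none * X (some none) + hyp (upH H) := by
  unfold H0
  rw [hyp_ins (wl_not_mem H), prod_pr none_ne]

theorem hyp_H1 {σ : Type} (H : Finset (Finset σ)) (i : σ) :
    hyp (H1 H i) = X (em σ i) * X (some none) + (X none * X (some none) + hyp (upH H)) := by
  unfold H1
  rw [hyp_ins (il_not_mem H i), hyp_wl, prod_pr (em_ne i)]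

theorem cub_H0 {σ : Type} {H : Finset (Finset σ)} (hH : Rk3 H) : Rk3 (H0 H) :=
  cub_ins (cub_up hH) (by rw [card_pr none_ne]; omega)

theorem cub_H1 {σ : Type} {H : Finset (Finset σ)} (hH : Rk3 H) (i : σ) : Rk3 (H1 H i) :=
  cub_ins (cub_H0 hH) (by rw [card_pr (em_ne i)]; omega)

theorem sum_cons {σ : Type} (p : ℤ × List σ) (L : List (ℤ × List σ)) :
    ((p :: L).map wp).sum = wp p + (L.map wp).sum := by
  rw [List.map_cons, List.sum_cons]

theorem wp_cons {σ : Type} (c : ℤ) (i : σ) (y : List σ) :
    wp (c, i :: y) = C c * (X i * (y.map X).prod) := by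
  unfold wp
  rw [List.map_cons, List.prod_cons]

/-- A step with `a = X i`. -/
theorem S1 (hst : STEG) {σ : Type} (H : Finset (Finset σ)) (L : List (ℤ × List σ)) (c : ℤ) (i : σ)
    (y : List σ) :
    RedG (hyp H + (((c, i :: y) :: L).map wp).sum)
      (hyp (H1 H i) + (((-c, none :: y.map (em σ)) :: upL L).map wp).sum) := by
  have h := hst (hyp H + (L.map wp).sum) (X i) ((y.map X).prod) c
  have e1 : hyp H + (((c, i :: y) :: L).map wp).sum =
      hyp H + (L.map wp).sum + C c * X i * (y.map X).prod := by
    rw [sum_cons, wp_cons]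
    ring
  have e2 : hyp (H1 H i) + (((-c, none :: y.map (em σ)) :: upL L).map wp).sum =
      rename (fun i => some (some i)) (hyp H + (L.map wp).sum) +
        rename (fun i => some (some i)) (X i) * X (some none) -
        C c * X none * rename (fun i => some (some i)) ((y.map X).prod) + X none * X (some none) := by
    rw [map_add, rename_hyp, rename_sum, rename_list, rename_X, hyp_H1, sum_cons, wp_cons, em_apply,
      C_neg]
    ring
  rw [e1, e2]
  exact h

/-- A step with `a = X i X j`. -/
theorem S3 (hst : STEG) {σ : Type} (H : Finset (Finset σ)) (L : List (ℤ × List σ)) (c : ℤ) (i j : σ)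
    (y : List σ) :
    RedG (hyp H + (((c, i :: j :: y) :: L).map wp).sum)
      (hyp (H0 H) +
        (((1, [em σ i, em σ j, some none]) :: (-c, none :: y.map (em σ)) :: upL L).map wp).sum) := by
  have h := hst (hyp H + (L.map wp).sum) (X i * X j) ((y.map X).prod) c
  have e1 : hyp H + (((c, i :: j :: y) :: L).map wp).sum =
      hyp H + (L.map wp).sum + C c * (X i * X j) * (y.map X).prod := by
    rw [sum_cons, wp_cons, List.map_cons, List.prod_cons]
    ring
  have e2 : hyp (H0 H) +
        (((1, [em σ i, em σ j, some none]) :: (-c, none :: y.map (em σ)) :: upL L).map wp).sum =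
      rename (fun i => some (some i)) (hyp H + (L.map wp).sum) +
        rename (fun i => some (some i)) (X i * X j) * X (some none) -
        C c * X none * rename (fun i => some (some i)) ((y.map X).prod) + X none * X (some none) := by
    rw [map_add, rename_hyp, rename_sum, rename_list, map_mul, rename_X, rename_X, hyp_wl, sum_cons,
      sum_cons, wp_cons, wp_cons, em_apply, em_apply, C_neg, List.map_cons, List.map_cons,
      List.prod_cons, List.prod_cons, List.map_nil, List.prod_nil, C_1]
    ring
  rw [e1, e2]
  exact h

/-- The edges added in a step with `a = 1`. -/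
def HL {σ : Type} (H : Finset (Finset σ)) : Finset (Finset (Option (Option σ))) :=
  ins {some none} (H0 H)

theorem l_not_mem {σ : Type} (H : Finset (Finset σ)) :
    ({some none} : Finset (Option (Option σ))) ∉ H0 H := by
  intro h
  rcases mem_ins.1 h with h | h
  · have h1 : (none : Option (Option σ)) ∈ ({some none} : Finset (Option (Option σ))) := by
      rw [h]
      exact mem_pr.2 (Or.inl rfl)
    exact none_ne (Finset.mem_singleton.1 h1)
  · exact (none_not_mem h).2 (Finset.mem_singleton_self _)

theorem hyp_HL {σ : Type} (H : Finset (Finset σ)) :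
    hyp (HL H) = X (some none) + (X none * X (some none) + hyp (upH H)) := by
  unfold HL
  rw [hyp_ins (l_not_mem H), hyp_wl, Finset.prod_singleton]

theorem cub_HL {σ : Type} {H : Finset (Finset σ)} (hH : Rk3 H) : Rk3 (HL H) :=
  cub_ins (cub_H0 hH) (by rw [Finset.card_singleton]; omega)

/-- A step with `a = b = 1`. -/
theorem S0 (hst : STEG) {σ : Type} (H : Finset (Finset σ)) (L : List (ℤ × List σ)) (c : ℤ) :
    RedG (hyp H + (((c, []) :: L).map wp).sum)
      (hyp (HL H) + (((-c, [none]) :: upL L).map wp).sum) := by
  have h := hst (hyp H + (L.map wp).sum) 1 1 c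
  have e1 : hyp H + (((c, []) :: L).map wp).sum =
      hyp H + (L.map wp).sum + C c * 1 * 1 := by
    rw [sum_cons]
    unfold wp
    rw [List.map_nil, List.prod_nil]
    ring
  have e2 : hyp (HL H) + (((-c, [none]) :: upL L).map wp).sum =
      rename (fun i => some (some i)) (hyp H + (L.map wp).sum) +
        rename (fun i => some (some i)) 1 * X (some none) -
        C c * X none * rename (fun i => some (some i)) 1 + X none * X (some none) := by
    rw [map_add, rename_hyp, rename_sum, map_one, hyp_HL, sum_cons, wp_cons, C_neg, List.map_nil,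
      List.prod_nil]
    ring
  rw [e1, e2]
  exact h

/-- The last edge. -/
theorem fin {σ : Type} {G : Finset (Finset (Option (Option σ)))} (hG : Rk3 G)
    {L : List (ℤ × List σ)} (hL : Val L) (y : List σ) (hy : y.Nodup) (hl : y.length ≤ 2)
    (hnm : toF ((none : Option (Option σ)) :: y.map (em σ)) ∉ G)
    [Fintype σ]
    (hrest : ∀ (τ : Type) [Fintype τ] (H' : Finset (Finset τ)) (L' : List (ℤ × List τ)), Rk3 H' →
      Val L' → meas L' = meas L → Good (hyp H' + (L'.map wp).sum)) :
    Good (hyp G + (((- -1, none :: y.map (em σ)) :: upL L).map wp).sum) := by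
  have hnd : ((none : Option (Option σ)) :: y.map (em σ)).Nodup := by
    rw [List.nodup_cons]
    refine ⟨?_, hy.map (em σ).injective⟩
    rw [List.mem_map]
    rintro ⟨a, _, ha⟩
    rw [em_apply] at ha
    cases ha
  have e : hyp G + (((- -1, none :: y.map (em σ)) :: upL L).map wp).sum =
      hyp (ins (toF ((none : Option (Option σ)) :: y.map (em σ))) G) +
        ((upL L).map wp).sum := by
    rw [hyp_ins hnm, prod_toF hnd, sum_cons]
    unfold wp
    rw [neg_neg, C_1]
    ring
  rw [e]
  refine hrest _ _ _ (cub_ins hG ?_) (val_up hL) (meas_up L)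
  rw [card_toF hnd, List.length_cons, List.length_map]
  omega

theorem some_not_mem {σ : Type} (y : List σ) :
    (some none : Option (Option σ)) ∉ toF ((none : Option (Option σ)) :: y.map (em σ)) := by
  rw [mem_toF, List.mem_cons, List.mem_map]
  rintro (h | ⟨a, _, ha⟩)
  · cases h
  · rw [em_apply] at ha
    cases ha

/-- A step which ends with an edge. -/
theorem S2 (htr : TRAG) (hst : STEG) {σ : Type} [Fintype σ] {H : Finset (Finset σ)} (hH : Rk3 H)
    {L : List (ℤ × List σ)} (hL : Val L) (i : σ) (y : List σ) (hy : y.Nodup)
    (hl : y.length ≤ 2)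
    (hrest : ∀ (τ : Type) [Fintype τ] (H' : Finset (Finset τ)) (L' : List (ℤ × List τ)), Rk3 H' →
      Val L' → meas L' = meas L → Good (hyp H' + (L'.map wp).sum)) :
    Good (hyp H + (((-1, i :: y) :: L).map wp).sum) := by
  refine Good.of_red htr (S1 hst H L (-1) i y) ?_
  have hln := some_not_mem y
  refine fin (cub_H1 hH i) hL y hy hl ?_ hrest
  unfold H1
  intro h
  rcases mem_ins.1 h with h | h
  · rw [h] at hln
    exact hln (mem_pr.2 (Or.inr rfl))
  · rcases mem_ins.1 h with h | h
    · rw [h] at hln
      exact hln (mem_pr.2 (Or.inr rfl))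
    · exact (none_not_mem h).1 (mem_toF.2 (List.mem_cons_self ..))

/-- The empty word with sign `-1`. -/
theorem S00 (htr : TRAG) (hst : STEG) {σ : Type} [Fintype σ] {H : Finset (Finset σ)} (hH : Rk3 H)
    {L : List (ℤ × List σ)} (hL : Val L)
    (hrest : ∀ (τ : Type) [Fintype τ] (H' : Finset (Finset τ)) (L' : List (ℤ × List τ)), Rk3 H' →
      Val L' → meas L' = meas L → Good (hyp H' + (L'.map wp).sum)) :
    Good (hyp H + (((-1, []) :: L).map wp).sum) := by
  refine Good.of_red htr (S0 hst H L (-1)) ?_
  have hln := some_not_mem ([] : List σ)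
  refine fin (cub_HL hH) hL [] List.nodup_nil (by simp) ?_ hrest
  unfold HL
  intro h
  rcases mem_ins.1 h with h | h
  · rw [h] at hln
    exact hln (Finset.mem_singleton_self _)
  · rcases mem_ins.1 h with h | h
    · rw [h] at hln
      exact hln (mem_pr.2 (Or.inr rfl))
    · exact (none_not_mem h).1 (mem_toF.2 (List.mem_cons_self ..))

theorem wp_swap {σ : Type} (c : ℤ) (a b : σ) (y : List σ) :
    wp (c, a :: b :: y) = wp (c, b :: a :: y) := by
  rw [wp_cons, wp_cons, List.map_cons, List.prod_cons, List.map_cons, List.prod_cons]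
  ring

theorem main (htr : TRAG) (hst : STEG) (his : ISOG) : ∀ (n : ℕ) (σ : Type) [Fintype σ]
    (H : Finset (Finset σ)) (L : List (ℤ × List σ)), Rk3 H → Val L → meas L ≤ n →
    Good (hyp H + (L.map wp).sum) := by
  intro n
  induction n using Nat.strong_induction_on with
  | _ n ih =>
    intro σ _ H L hH hL hn
    cases L with
    | nil =>
      refine ⟨σ, inferInstance, H, hH, ?_⟩
      rw [List.map_nil, List.sum_nil, add_zero]
      exact his AlgEquiv.refl (hyp H)
    | cons p L =>
      obtain ⟨c, u⟩ := p
      have hc := hL (c, u) (List.mem_cons_self ..)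
      have hL' : Val L := fun q hq => hL q (List.mem_cons_of_mem _ hq)
      have hm : meas ((c, u) :: L) = 3 ^ u.length + meas L := by
        unfold meas
        rw [List.map_cons, List.sum_cons]
      have hpos : 0 < 3 ^ u.length := Nat.pow_pos (by norm_num)
      have hrest : ∀ (τ : Type) [Fintype τ] (H' : Finset (Finset τ)) (L' : List (ℤ × List τ)),
          Rk3 H' → Val L' → meas L' = meas L → Good (hyp H' + (L'.map wp).sum) := by
        intro τ _ H' L' h1 h2 h3
        exact ih (meas L) (by omega) τ H' L' h1 h2 h3.le
      simp only at hc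
      match u with
      | [] =>
        rcases hc with rfl | rfl
        · refine Good.of_red htr (S0 hst H L 1) ?_
          refine S2 htr hst (cub_HL hH) (val_up hL') none [] List.nodup_nil (by simp) ?_
          intro τ _ H' L' h1 h2 h3
          exact hrest τ H' L' h1 h2 (h3.trans (meas_up L))
        · exact S00 htr hst hH hL' hrest
      | [i] =>
        rcases hc with rfl | rfl
        · refine Good.of_red htr (S1 hst H L 1 i []) ?_
          refine S2 htr hst (cub_H1 hH i) (val_up hL') none [] List.nodup_nil (by simp) ?_
          intro τ _ H' L' h1 h2 h3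
          exact hrest τ H' L' h1 h2 (h3.trans (meas_up L))
        · exact S2 htr hst hH hL' i [] List.nodup_nil (by simp) hrest
      | [i, j] =>
        rcases hc with rfl | rfl
        · refine Good.of_red htr (S1 hst H L 1 i [j]) ?_
          refine S2 htr hst (cub_H1 hH i) (val_up hL') none [em σ j] (by simp) (by simp) ?_
          intro τ _ H' L' h1 h2 h3
          exact hrest τ H' L' h1 h2 (h3.trans (meas_up L))
        · exact S2 htr hst hH hL' i [j] (by simp) (by simp) hrest
      | [i, j, k] =>
        rcases hc with rfl | rfl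
        · refine Good.of_red htr (S1 hst H L 1 i [j, k]) ?_
          have e : (((-1, none :: [j, k].map (em σ)) :: upL L).map wp).sum =
              (((-1, em σ j :: [none, em σ k]) :: upL L).map wp).sum := by
            rw [sum_cons, sum_cons]
            congr 1
            exact wp_swap _ _ _ _
          rw [e]
          refine S2 htr hst (cub_H1 hH i) (val_up hL') (em σ j) [none, em σ k] ?_ (by simp) ?_
          · simp [em_apply]
          · intro τ _ H' L' h1 h2 h3
            exact hrest τ H' L' h1 h2 (h3.trans (meas_up L))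
        · refine Good.of_red htr (S1 hst H L (-1) i [j, k]) ?_
          have e : (((- -1, none :: [j, k].map (em σ)) :: upL L).map wp).sum =
              (((1, em σ j :: [none, em σ k]) :: upL L).map wp).sum := by
            rw [sum_cons, sum_cons, neg_neg]
            congr 1
            exact wp_swap _ _ _ _
          rw [e]
          refine Good.of_red htr (S1 hst (H1 H i) (upL L) 1 (em σ j) [none, em σ k]) ?_
          refine S2 htr hst (cub_H1 (cub_H1 hH i) _) (val_up (val_up hL')) none
            [em _ none, em _ (em σ k)] ?_ (by simp) ?_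
          · simp [em_apply]
          · intro τ _ H' L' h1 h2 h3
            exact hrest τ H' L' h1 h2 (h3.trans ((meas_up _).trans (meas_up L)))
      | i :: j :: a :: b :: v =>
        refine Good.of_red htr (S3 hst H L c i j (a :: b :: v)) ?_
        have hlt : meas ((1, [em σ i, em σ j, some none]) ::
            (-c, none :: (a :: b :: v).map (em σ)) :: upL L) < n := by
          have e1 : meas ((1, [em σ i, em σ j, some none]) ::
              (-c, none :: (a :: b :: v).map (em σ)) :: upL L) =
              3 ^ 3 + (3 ^ (v.length + 3) + meas L) := by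
            rw [← meas_up L]
            unfold meas
            rw [List.map_cons, List.sum_cons, List.map_cons, List.sum_cons]
            simp only [List.length_cons, List.length_nil, List.length_map]
          have e2 : 3 ^ (i :: j :: a :: b :: v).length = 81 * 3 ^ v.length := by
            simp only [List.length_cons]
            ring
          have e3 : 3 ^ (v.length + 3) = 27 * 3 ^ v.length := by ring
          have e4 : 1 ≤ 3 ^ v.length := Nat.one_le_pow _ _ (by norm_num)
          rw [e1, e3]
          rw [hm, e2] at hn
          omega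
        refine ih _ hlt _ _ _ ?_ ?_ le_rfl
        · exact cub_H0 hH
        · intro q hq
          rcases List.mem_cons.1 hq with rfl | hq
          · exact Or.inl rfl
          · rcases List.mem_cons.1 hq with rfl | hq
            · rcases hc with rfl | rfl
              · exact Or.inr rfl
              · exact Or.inl (neg_neg 1)
            · exact val_up hL' q hq

end

/-- Packet HG-WDG. -/
theorem t (htr : TRAG) (hst : STEG) (his : ISOG) : WDG := by
  intro σ _ H L hH hL
  exact main htr hst his (meas L) σ H L hH hL le_rfl

end Pool.Agent.Helper84.HG.WDG
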